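import Pool.Agent.H53.GX.Targets2

/-!
# Forbidden coloured patterns, no precolouring: the ternary operations (row LBT)
-/

set_option autoImplicit false
set_option linter.unusedVariables false

namespace Pool.Agent.H59.GX

open Pool.Agent.H68.BP Pool.Agent.H58.SF Pool.Agent.H53.GM Pool.Agent.H53.GX
open Pool.Agent.H53.GR (So)
open Classical

/-- a uniform exponent for the injective self-maps of a finite set -/
theorem exists_exp {X : Type} [Finite X] (C : Set X) :
    ∃ m₀ : ℕ, ∀ g : X → X, (∀ x ∈ C, g x ∈ C) → (∀ x ∈ C, ∀ y ∈ C, g x = g y → x = y) →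
      ∀ x ∈ C, g^[m₀ + 1] x = x := by
  have : Fintype C := Fintype.ofFinite _
  have hc : 0 < Fintype.card (Equiv.Perm C) := Fintype.card_pos
  refine ⟨Fintype.card (Equiv.Perm C) - 1, fun g hm hi x hx => ?_⟩
  rw [Nat.sub_add_cancel hc]
  set f : C → C := fun y => ⟨g y.1, hm y.1 y.2⟩ with hf
  have hfi : Function.Injective f := fun y z h =>
    Subtype.ext (hi y.1 y.2 z.1 z.2 (congrArg Subtype.val h))
  have hfb : Function.Bijective f := Finite.injective_iff_bijective.1 hfi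
  have h1 : ∀ n : ℕ, ((f^[n] ⟨x, hx⟩ : C) : X) = g^[n] x := by
    intro n
    induction n with
    | zero => rfl
    | succ n ih =>
      rw [Function.iterate_succ_apply', Function.iterate_succ_apply', ← ih]
  have h2 : ∀ n : ℕ, ((Equiv.ofBijective f hfb) ^ n : Equiv.Perm C) ⟨x, hx⟩ = f^[n] ⟨x, hx⟩ := by
    intro n
    rw [← Equiv.Perm.iterate_eq_pow]
    rfl
  rw [← h1, ← h2, pow_card_eq_one]
  rfl

section nat

variable {τ σ : Sig} {N k : ℕ} {Al : Fin σ.m → Fin τ.m → Prop} {C : Set (Ty τ N (Fin k))}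

theorem rse_univ (t : Ty τ N (Fin k)) : rse Finset.univ t = t := by
  ext q
  exact ⟨fun h => h.1, fun h => ⟨h, fun v i _ => Finset.mem_univ i⟩⟩

theorem NatM.iter {th : Ty τ N (Fin k) → Ty τ N (Fin k)} (h : NatM Al C th) (m : ℕ) :
    NatM Al C th^[m] := by
  induction m with
  | zero => exact ⟨fun P hP => hP, fun P _ l z hl => hl, fun P _ P' _ e he => he⟩
  | succ m ih =>
    refine ⟨fun P hP => ?_, fun P hP l z hl => ?_, fun P hP P' hP' e he => ?_⟩
    · rw [Function.iterate_succ_apply']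
      exact h.mem _ (ih.mem P hP)
    · rw [Function.iterate_succ_apply']
      exact h.has _ (ih.mem P hP) l z (ih.has P hP l z hl)
    · rw [Function.iterate_succ_apply', Function.iterate_succ_apply']
      exact h.nat _ (ih.mem P hP) _ (ih.mem P' hP') e (ih.nat P hP P' hP' e he)

theorem NatM.comp {th th' : Ty τ N (Fin k) → Ty τ N (Fin k)} (h : NatM Al C th)
    (h' : NatM Al C th') : NatM Al C (fun P => th' (th P)) :=
  ⟨fun P hP => h'.mem _ (h.mem P hP), fun P hP l z hl => h'.has _ (h.mem P hP) l z (h.has P hP l z hl),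
    fun P hP P' hP' e he => h'.nat _ (h.mem P hP) _ (h.mem P' hP') e (h.nat P hP P' hP' e he)⟩

end nat

section core

variable {τ σ : Sig} {N k : ℕ} {F : Set (Str τ (Fin N))} {Al : Fin σ.m → Fin τ.m → Prop}
  {eps : Ty τ N (Fin k) → Ty τ N (Fin k)}

theorem Core.injC (hc : Core F Al eps) {th : Ty τ N (Fin k) → Ty τ N (Fin k)}
    (h : NatM Al (CS F eps) th) : ∀ P ∈ CS F eps, ∀ P' ∈ CS F eps, th P = th P' → P = P' := by
  intro P hP P' hP' he
  have h1 := hc.inj th h P hP P' hP' Finset.univ (by rw [he])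
  rwa [rse_univ, rse_univ] at h1

theorem vp_pat {C : Set (Ty τ N (Fin k))} {I : Finset (Fin k)} {J : Type}
    {P : J → Ty τ N (Fin k)} (h : VP C I P) (r : Fin 3) (i j : J) :
    VP C I (pat r (P i) (P j)) := by
  have h1 : ∀ c : Fin 6, ∃ l, pat r (P i) (P j) c = P l := by
    intro c
    rw [pat_eq_ite]
    by_cases h : pat r (0 : Fin 6) 1 c = 0
    · rw [if_pos h]; exact ⟨i, rfl⟩
    · rw [if_neg h]; exact ⟨j, rfl⟩
  refine ⟨fun c => ?_, fun e he c c' => ?_⟩
  · obtain ⟨l, hl⟩ := h1 c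
    rw [hl]; exact h.mem l
  · obtain ⟨l, hl⟩ := h1 c
    obtain ⟨l', hl'⟩ := h1 c'
    rw [hl, hl']; exact h.eq e he l l'

theorem rse_pat {J : Type} {P P' : J → Ty τ N (Fin k)} {e : Finset (Fin k)}
    (h : ∀ i, rse e (P i) = rse e (P' i)) (r : Fin 3) (i j : J) (c : Fin 6) :
    rse e (pat r (P i) (P j) c) = rse e (pat r (P' i) (P' j) c) := by
  rw [pat_eq_ite r (P i) (P j), pat_eq_ite r (P' i) (P' j)]
  by_cases h' : pat r (0 : Fin 6) 1 c = 0
  · rw [if_pos h', if_pos h']; exact h i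
  · rw [if_neg h', if_neg h']; exact h j

end core

set_option maxHeartbeats 4000000 in
theorem pf_LBT (hCFG : Pool.Agent.H53.GX.T_CFG) : Pool.Agent.H53.GX.T_LBT := by
  intro τ σ N k F Al hk eps hcore I Out th hcor r lb lb' hin hadj hin' hadj' u huI hoff
  have hfin := finite_ty τ N (Fin k)
  obtain ⟨m₀, hm₀⟩ := exists_exp (CS F eps)
  -- the constants, the names and the corrections
  set a : Ty τ N (Fin k) → Ty τ N (Fin k) → Ty τ N (Fin (k + k)) := fun x y =>
    rse (cst I) (dup (pat r x y 0)) with ha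
  set q : (Fin k → Rg (N + 1)) → Ty τ N (Fin k) → Ty τ N (Fin k) → Nm τ N k (N + 1) :=
    fun l x y => cfg I r l (pat r x y) with hq
  set A : Ty τ N (Fin k) → Ty τ N (Fin k) → Ty τ N (Fin k) → Ty τ N (Fin k) := fun x y =>
    th (a x y) (q lb x y) with hA
  set B : Ty τ N (Fin k) → Ty τ N (Fin k) → Ty τ N (Fin k) → Ty τ N (Fin k) := fun x y =>
    th (a x y) (q lb' x y) with hB
  set Θ : (Fin 3 → Ty τ N (Fin k)) → Ty τ N (Fin k) := fun P =>
    B (P 0) (P 1) ((A (P 0) (P 1))^[m₀] (P 2)) with hΘ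
  have hCR : ∀ P ∈ CS F eps, Rl F P := fun P hP => hP.1
  -- the facts for a valid pair
  have key : ∀ (l : Fin k → Rg (N + 1)), (∀ v, inR r (l v)) → (∀ v v', Adj (l v) (l v')) →
      ∀ x y, VP (CS F eps) I ![x, y] →
      (∃ Q : Ty τ N (Fin (k + k)), Rl F Q ∧ rse (cst I) Q = a x y) ∧
      CfD F I (a x y) (q l x y) ∧ (∀ c, ptn (q l x y) c = pat r x y c) ∧
      ∀ (l' : Fin k → Rg (N + 1)) (x' y' : Ty τ N (Fin k)) (e : Finset (Fin k)),
        VP (CS F eps) I ![x', y'] → (∀ v ∈ e, l v = l' v) →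
        (∀ c, rse (e ∪ I) (pat r x y c) = rse (e ∪ I) (pat r x' y' c)) →
        a x y = a x' y' ∧ EqD I (a x y) e (q l x y) (q l' x' y') := by
    intro l hl1 hl2 x y hv
    obtain ⟨h1, h2, h3, h4⟩ := hCFG τ σ N k (N + 1) F I hk (CS F eps) hCR r l hl1 hl2
      (pat r x y) (vp_pat hv r 0 1) (Or.inr ⟨x, y, rfl⟩)
    refine ⟨h1, h2, h3, fun l' x' y' e hv' h5 h6 => ?_⟩
    obtain ⟨h7, h8, -⟩ := h4 r l' (pat r x' y') e (vp_pat hv' r 0 1) h5 h6
    exact ⟨h7, h8 rfl⟩
  have hvp2 : ∀ {J : Type} {P : J → Ty τ N (Fin k)}, VP (CS F eps) I P → ∀ i j,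
      VP (CS F eps) I ![P i, P j] := by
    intro J P h i j
    refine ⟨fun c => ?_, fun e he c c' => ?_⟩
    · fin_cases c
      · exact h.mem i
      · exact h.mem j
    · fin_cases c <;> fin_cases c'
      · rfl
      · exact h.eq e he i j
      · exact h.eq e he j i
      · rfl
  have hNA : ∀ x y, VP (CS F eps) I ![x, y] → NatM Al (CS F eps) (A x y) := by
    intro x y hv
    obtain ⟨h1, h2, -, -⟩ := key lb hin hadj x y hv
    exact (hcor _ h1).nat _ h2
  have hNB : ∀ x y, VP (CS F eps) I ![x, y] → NatM Al (CS F eps) (B x y) := by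
    intro x y hv
    obtain ⟨h1, h2, -, -⟩ := key lb' hin' hadj' x y hv
    exact (hcor _ h1).nat _ h2
  -- the outputs do not depend on the region of `u`
  have hO : ∀ x y, VP (CS F eps) I ![x, y] →
      Out (a x y) (q lb x y) = Out (a x y) (q lb' x y) := by
    intro x y hv
    obtain ⟨h1, h2, -, h4⟩ := key lb hin hadj x y hv
    obtain ⟨-, h2', -, -⟩ := key lb' hin' hadj' x y hv
    have hne : ∀ v, v ∉ I → lb v = lb' v := fun v hv' => hoff v fun h => hv' (h ▸ huI)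
    obtain ⟨-, h5⟩ := h4 lb' x y (Finset.univ \ I) hv
      (fun v hv' => hne v (Finset.mem_sdiff.1 hv').2) fun c => rfl
    have h6 : EqX I (a x y) Finset.univ (q lb x y) (q lb' x y) := by
      refine ⟨fun v _ => Iff.rfl, fun v _ hv' => hne v hv', ?_⟩
      have h7 := h5.eqx.sk
      have e1 : (Finset.univ \ I) \ (q lb x y).1 = Finset.univ \ (q lb x y).1 := by
        change (Finset.univ \ I) \ I = Finset.univ \ I
        ext v; simp
      have e2 : (Finset.univ \ I) \ (q lb' x y).1 = Finset.univ \ (q lb' x y).1 := e1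
      rw [e1, e2] at h7
      exact h7
    have h8 := (hcor _ h1).out.eq _ _ Finset.univ h2.cf h2'.cf h6
    rwa [rse_univ, rse_univ] at h8
  have hOC : ∀ x y, VP (CS F eps) I ![x, y] → eps (Out (a x y) (q lb x y)) ∈ CS F eps := by
    intro x y hv
    obtain ⟨h1, h2, -, -⟩ := key lb hin hadj x y hv
    have h3 : Rl F (Out (a x y) (q lb x y)) := (hcor _ h1).out.rl _ h2.cf
    exact ⟨hcore.nat.mem _ h3, hcore.idem _ h3⟩
  -- the powers
  have hpow : ∀ x y, VP (CS F eps) I ![x, y] → ∀ z ∈ CS F eps, (A x y)^[m₀ + 1] z = z :=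
    fun x y hv z hz => hm₀ (A x y) (hNA x y hv).mem (Core.injC hcore (hNA x y hv)) z hz
  refine ⟨Θ, ⟨fun P hP => ?_, fun P hP l z hl => ?_, fun P P' hP hP' e he h => ?_,
    fun P hP e t ht => ?_⟩, fun P hP e => ?_, m₀ + 1, Nat.succ_le_succ (Nat.zero_le _),
    fun P hP e => ?_⟩
  · -- membership
    have hv := hvp2 hP 0 1
    exact (hNB _ _ hv).mem _ ((NatM.iter (hNA _ _ hv) m₀).mem _ (hP.mem 2))
  · have hv := hvp2 hP 0 1
    exact (hNB _ _ hv).has _ ((NatM.iter (hNA _ _ hv) m₀).mem _ (hP.mem 2)) l z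
      ((NatM.iter (hNA _ _ hv) m₀).has _ (hP.mem 2) l z (hl 2))
  · -- naturality
    have hv := hvp2 hP 0 1
    have hv' := hvp2 hP' 0 1
    obtain ⟨h1, h2, -, h4⟩ := key lb hin hadj _ _ hv
    obtain ⟨-, h2', -, -⟩ := key lb hin hadj _ _ hv'
    obtain ⟨-, h5, -, h6⟩ := key lb' hin' hadj' _ _ hv
    obtain ⟨-, h5', -, -⟩ := key lb' hin' hadj' _ _ hv'
    have heI : e ∪ I = e := Finset.union_eq_left.2 he.subset
    have hr : ∀ c, rse (e ∪ I) (pat r (P 0) (P 1) c) = rse (e ∪ I) (pat r (P' 0) (P' 1) c) := by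
      intro c
      rw [heI]
      exact rse_pat h r 0 1 c
    obtain ⟨e1, e2⟩ := h4 lb (P' 0) (P' 1) e hv' (fun _ _ => rfl) hr
    obtain ⟨-, e3⟩ := h6 lb' (P' 0) (P' 1) e hv' (fun _ _ => rfl) hr
    rw [← e1] at h2' h5'
    have hAe : ∀ z ∈ CS F eps, ∀ z' ∈ CS F eps, rse e z = rse e z' →
        rse e (A (P 0) (P 1) z) = rse e (A (P' 0) (P' 1) z') := by
      intro z hz z' hz' hzz
      have := (hcor _ h1).eq _ _ e h2 h2' e2 z hz z' hz' hzz
      simp only [hA]
      rw [← e1]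
      exact this
    have hBe : ∀ z ∈ CS F eps, ∀ z' ∈ CS F eps, rse e z = rse e z' →
        rse e (B (P 0) (P 1) z) = rse e (B (P' 0) (P' 1) z') := by
      intro z hz z' hz' hzz
      have := (hcor _ h1).eq _ _ e h5 h5' e3 z hz z' hz' hzz
      simp only [hB]
      rw [← e1]
      exact this
    have hit : ∀ m : ℕ, rse e ((A (P 0) (P 1))^[m] (P 2)) = rse e ((A (P' 0) (P' 1))^[m] (P' 2)) := by
      intro m
      induction m with
      | zero => exact h 2
      | succ m ih =>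
        rw [Function.iterate_succ_apply', Function.iterate_succ_apply']
        exact hAe _ ((NatM.iter (hNA _ _ hv) m).mem _ (hP.mem 2)) _
          ((NatM.iter (hNA _ _ hv') m).mem _ (hP'.mem 2)) ih
    exact hBe _ ((NatM.iter (hNA _ _ hv) m₀).mem _ (hP.mem 2)) _
      ((NatM.iter (hNA _ _ hv') m₀).mem _ (hP'.mem 2)) (hit m₀)
  · -- idempotence
    have hv := hvp2 hP 0 1
    obtain ⟨h1, h2, h3, -⟩ := key lb hin hadj _ _ hv
    obtain ⟨-, h5, h6, -⟩ := key lb' hin' hadj' _ _ hv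
    have hpt : ∀ c, rse e (pat r (P 0) (P 1) c) = t := by
      intro c
      rw [pat_eq_ite]
      by_cases h' : pat r (0 : Fin 6) 1 c = 0
      · rw [if_pos h']; exact ht 0
      · rw [if_neg h']; exact ht 1
    have hpm : pat r (P 0) (P 1) 0 ∈ CS F eps := (vp_pat hP r 0 1).mem 0
    have d1 : DgX (CS F eps) (q lb (P 0) (P 1)) e := by
      refine ⟨fun c => ?_, pat r (P 0) (P 1) 0, hpm, ?_⟩
      · rw [h3, h3, hpt, hpt]
      · rw [h3]
    have d2 : DgX (CS F eps) (q lb' (P 0) (P 1)) e := by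
      refine ⟨fun c => ?_, pat r (P 0) (P 1) 0, hpm, ?_⟩
      · rw [h6, h6, hpt, hpt]
      · rw [h6]
    have g1 := (hcor _ h1).dg _ e h2 d1
    have g2 := (hcor _ h1).dg _ e h5 d2
    rw [h3, hpt] at g1
    rw [h6, hpt, ← hO _ _ hv] at g2
    set Z := (A (P 0) (P 1))^[m₀] (P 2) with hZ
    have hZC : Z ∈ CS F eps := (NatM.iter (hNA _ _ hv) m₀).mem _ (hP.mem 2)
    have hAZ : A (P 0) (P 1) Z = P 2 := by
      rw [hZ]
      exact (Function.iterate_succ_apply' _ _ _).symm.trans (hpow _ _ hv _ (hP.mem 2))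
    have h7 : rse e (A (P 0) (P 1) (eps (Out (a (P 0) (P 1)) (q lb (P 0) (P 1))))) =
        rse e (A (P 0) (P 1) Z) := by
      rw [hAZ, ht 2]
      exact g1
    have h8 := hcore.inj _ (hNA _ _ hv) _ (hOC _ _ hv) _ hZC e h7
    have h9 := (hNB _ _ hv).nat _ (hOC _ _ hv) _ hZC e h8
    exact h9.symm.trans g2
  · -- the step
    have hv := hvp2 hP 0 1
    have e0 : Ps eps I Out th r lb (pat r (P 0) (P 1)) =
        A (P 0) (P 1) (eps (Out (a (P 0) (P 1)) (q lb (P 0) (P 1)))) := rfl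
    have e1 : Ps eps I Out th r lb' (pat r (P 0) (P 1)) =
        B (P 0) (P 1) (eps (Out (a (P 0) (P 1)) (q lb' (P 0) (P 1)))) := rfl
    rw [e0, e1, ← hO _ _ hv]
    have e2 : Θ ![P 0, P 1, A (P 0) (P 1) (eps (Out (a (P 0) (P 1)) (q lb (P 0) (P 1))))] =
        B (P 0) (P 1) ((A (P 0) (P 1))^[m₀]
          (A (P 0) (P 1) (eps (Out (a (P 0) (P 1)) (q lb (P 0) (P 1)))))) := rfl
    rw [e2, ← Function.iterate_succ_apply, hpow _ _ hv _ (hOC _ _ hv)]
  · -- iteration
    have hv := hvp2 hP 0 1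
    have hN : NatM Al (CS F eps) (fun z => B (P 0) (P 1) ((A (P 0) (P 1))^[m₀] z)) :=
      NatM.comp (NatM.iter (hNA _ _ hv) m₀) (hNB _ _ hv)
    have h1 : ∀ m, itO Θ m P = (fun z => B (P 0) (P 1) ((A (P 0) (P 1))^[m₀] z))^[m] (P 2) := by
      intro m
      induction m with
      | zero => rfl
      | succ m ih =>
        rw [Function.iterate_succ_apply', ← ih]
        rfl
    rw [h1, hm₀ _ hN.mem (Core.injC hcore hN) _ (hP.mem 2)]

end Pool.Agent.H59.GX
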